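import Mathlib
import Pool.Agent.Results.MP_3a9d0e_gt.HeisenbergPreimage

/-! # Preimages of subgroups of the plane in the Heisenberg group and property `Z_m` -/

set_option autoImplicit false

namespace Pool.Agent.Y973.ZH

open Topology Filter
open Pool.Agent.H336R3.ZM
open Pool.Agent.H336R3.ZM.Heis
open Pool.Agent.Results.MP_3a9d0e_gt.HeisenbergPreimage

/-- the preimage of a subgroup of the plane in the Heisenberg group -/
def pre (D : AddSubgroup (ℝ × ℝ)) : Subgroup Heis where
  carrier := {p | (p.x, p.y) ∈ D}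
  mul_mem' := fun hp hq => D.add_mem hp hq
  one_mem' := D.zero_mem
  inv_mem' := fun hp => D.neg_mem hp

/-- `D` meets every line through the origin in a discrete group -/
def DiscreteSections (D : AddSubgroup (ℝ × ℝ)) : Prop :=
  ∀ v : ℝ × ℝ, v ≠ 0 → ∃ ε : ℝ, 0 < ε ∧ ∀ t : ℝ, t • v ∈ D → |t| < ε → t = 0

theorem sq_pos_of_ne {v : ℝ × ℝ} (hv : v ≠ 0) : 0 < v.1 ^ 2 + v.2 ^ 2 := by
  by_contra h
  have h1 : v.1 ^ 2 = 0 := by nlinarith [sq_nonneg v.1, sq_nonneg v.2]
  have h2 : v.2 ^ 2 = 0 := by nlinarith [sq_nonneg v.1, sq_nonneg v.2]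
  exact hv (Prod.ext (pow_eq_zero_iff (two_ne_zero) |>.1 h1) (pow_eq_zero_iff (two_ne_zero) |>.1 h2))

/-- the projection of a subgroup with cyclic centre part is discrete at the origin -/
theorem core' (D : AddSubgroup (ℝ × ℝ)) (hDS : DiscreteSections D) (N : Subgroup Heis)
    (hD : ∀ p ∈ N, (p.x, p.y) ∈ D) (a : ℝ)
    (hA : ∀ z : ℝ, Heis.mk 0 0 z ∈ N → ∃ k : ℤ, z = k * a) :
    ∃ ε : ℝ, 0 < ε ∧ ∀ p ∈ N, |p.x| + |p.y| < ε → p.x = 0 ∧ p.y = 0 := by
  by_cases hdet : ∀ p ∈ N, ∀ q ∈ N, p.x * q.y - q.x * p.y = 0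
  · -- the projection is contained in a line
    by_cases htriv : ∀ p ∈ N, p.x = 0 ∧ p.y = 0
    · exact ⟨1, one_pos, fun p hp _ => htriv p hp⟩
    push Not at htriv
    obtain ⟨q, hq, hq0⟩ := htriv
    have hqne : ((q.x, q.y) : ℝ × ℝ) ≠ 0 := by
      intro h
      exact hq0 (congrArg Prod.fst h) (congrArg Prod.snd h)
    have hs := sq_pos_of_ne hqne
    simp only at hs
    have hqpos : 0 < |q.x| + |q.y| := by
      by_cases h : q.x = 0
      · have := abs_pos.2 (hq0 h)
        have := abs_nonneg q.x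
        linarith
      · have := abs_pos.2 h
        have := abs_nonneg q.y
        linarith
    obtain ⟨ε, hε, h⟩ := hDS _ hqne
    refine ⟨ε * (|q.x| + |q.y|), by positivity, fun p hp hlt => ?_⟩
    obtain ⟨t, ht⟩ : ∃ t : ℝ, t = (p.x * q.x + p.y * q.y) / (q.x ^ 2 + q.y ^ 2) := ⟨_, rfl⟩
    have hd := hdet p hp q hq
    have hx : p.x = t * q.x := by
      rw [ht]
      field_simp
      linear_combination q.y * hd
    have hy : p.y = t * q.y := by
      rw [ht]
      field_simp
      linear_combination (-q.x) * hd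
    have h1 : |t| < ε := by
      rw [hx, hy, abs_mul, abs_mul, ← mul_add] at hlt
      exact lt_of_mul_lt_mul_right hlt hqpos.le
    have h2 : t • ((q.x, q.y) : ℝ × ℝ) ∈ D := by
      have h3 : t • ((q.x, q.y) : ℝ × ℝ) = (p.x, p.y) := by
        rw [hx, hy]
        rfl
      rw [h3]
      exact hD p hp
    have h4 := h t h2 h1
    rw [h4] at hx hy
    exact ⟨by simpa using hx, by simpa using hy⟩
  · push Not at hdet
    obtain ⟨p₁, hp₁, p₂, hp₂, hne⟩ := hdet
    have ha : a ≠ 0 := by
      rintro rfl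
      obtain ⟨k, hk⟩ := hA _ (comm_mem hp₁ hp₂)
      rw [mul_zero] at hk
      exact hne hk
    have ha0 : 0 < |a| := abs_pos.2 ha
    set B : ℝ := 1 + |p₁.x| + |p₁.y| + |p₂.x| + |p₂.y| with hB
    have hBpos : 0 < B := by positivity
    refine ⟨|a| / B, by positivity, fun p hp hlt => ?_⟩
    have hsmall : ∀ r : Heis, r ∈ N → |r.x| ≤ B → |r.y| ≤ B → r.x * p.y - p.x * r.y = 0 := by
      intro r hr h1 h2
      obtain ⟨k, hk⟩ := hA _ (comm_mem hr hp)
      rw [hk]
      have h3 : |r.x * p.y - p.x * r.y| < |a| := by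
        rw [lt_div_iff₀ hBpos] at hlt
        calc |r.x * p.y - p.x * r.y| ≤ |r.x * p.y| + |p.x * r.y| := abs_sub _ _
          _ = |r.x| * |p.y| + |p.x| * |r.y| := by rw [abs_mul, abs_mul]
          _ ≤ B * |p.y| + |p.x| * B := by gcongr
          _ = (|p.x| + |p.y|) * B := by ring
          _ < |a| := hlt
      rw [hk, abs_mul] at h3
      have h4 : k = 0 := by
        by_contra hk0
        have h5 : (1 : ℝ) ≤ |(k : ℝ)| := by
          have : 1 ≤ |k| := Int.one_le_abs hk0
          exact_mod_cast this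
        nlinarith
      rw [h4]; simp
    have habs := fun t : ℝ => abs_nonneg t
    have e1 := hsmall p₁ hp₁ (by rw [hB]; linarith [habs p₁.x, habs p₁.y, habs p₂.x, habs p₂.y])
      (by rw [hB]; linarith [habs p₁.x, habs p₁.y, habs p₂.x, habs p₂.y])
    have e2 := hsmall p₂ hp₂ (by rw [hB]; linarith [habs p₁.x, habs p₁.y, habs p₂.x, habs p₂.y])
      (by rw [hB]; linarith [habs p₁.x, habs p₁.y, habs p₂.x, habs p₂.y])
    constructor
    · have : (p₁.x * p₂.y - p₂.x * p₁.y) * p.x = 0 := by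
        linear_combination p₂.x * e1 - p₁.x * e2
      exact (mul_eq_zero.1 this).resolve_left hne
    · have : (p₁.x * p₂.y - p₂.x * p₁.y) * p.y = 0 := by
        linear_combination p₂.y * e1 - p₁.y * e2
      exact (mul_eq_zero.1 this).resolve_left hne

theorem zm_pre (D : AddSubgroup (ℝ × ℝ)) (hDS : DiscreteSections D) : Zm (pre D) := by
  intro N hN hzd _
  -- the central line in `pre D`
  have hmem : ∀ z : ℝ, Heis.mk 0 0 z ∈ pre D := fun z => D.zero_mem
  let ψ : ℝ → pre D := fun z => ⟨Heis.mk 0 0 z, hmem z⟩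
  have hψ : Continuous ψ := by
    apply Continuous.subtype_mk
    exact continuous_mk.comp (by fun_prop : Continuous (fun z : ℝ => ((0, 0, z) : ℝ × ℝ × ℝ)))
  let A : AddSubgroup ℝ :=
    { carrier := {z | ψ z ∈ N}
      add_mem' := by
        intro s t hs ht
        have : ψ (s + t) = ψ s * ψ t := by
          apply Subtype.ext; apply Heis.ext <;> simp [ψ]
        change ψ (s + t) ∈ N
        rw [this]; exact N.mul_mem hs ht
      zero_mem' := by
        have : ψ 0 = 1 := by
          apply Subtype.ext; apply Heis.ext <;> simp [ψ]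
        change ψ 0 ∈ N
        rw [this]; exact N.one_mem
      neg_mem' := by
        intro s hs
        have : ψ (-s) = (ψ s)⁻¹ := by
          apply Subtype.ext; apply Heis.ext <;> simp [ψ]
        change ψ (-s) ∈ N
        rw [this]; exact N.inv_mem hs }
  have hAclosed : IsClosed (A : Set ℝ) := hN.preimage hψ
  have hcyc : ∃ a : ℝ, A = AddSubgroup.closure {a} := by
    rcases A.dense_or_cyclic with h | h
    · exfalso
      have huniv : (A : Set ℝ) = Set.univ := by
        rw [← hAclosed.closure_eq]; exact h.closure_eq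
      have hall : ∀ z, ψ z ∈ N := fun z => by
        have : z ∈ (A : Set ℝ) := by rw [huniv]; exact Set.mem_univ _
        exact this
      let χ : ℝ → N := fun z => ⟨ψ z, hall z⟩
      have hχ : Continuous χ := hψ.subtype_mk _
      have hne : χ 0 ≠ χ 1 := by
        intro h
        have h1 := congrArg (fun w : N => (w : pre D).1.z) h
        simp [χ, ψ] at h1
      obtain ⟨s, hs, h0, hsub⟩ := hzd.exists_subset_of_mem_open (a := χ 0) (u := {χ 1}ᶜ)
        (by simpa using hne) isOpen_compl_singleton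
      have hcl : IsClopen (χ ⁻¹' s) := IsClopen.preimage hs hχ
      rcases isClopen_iff.1 hcl with h | h
      · have : (0 : ℝ) ∈ χ ⁻¹' s := h0
        rw [h] at this; exact this
      · have : (1 : ℝ) ∈ χ ⁻¹' s := by rw [h]; exact Set.mem_univ _
        exact hsub this rfl
    · exact h
  obtain ⟨a, ha⟩ := hcyc
  have hA : ∀ z : ℝ, Heis.mk 0 0 z ∈ N.map (pre D).subtype → ∃ k : ℤ, z = k * a := by
    rintro z ⟨w, hw, hwz⟩
    have h1 : w = ψ z := Subtype.ext hwz
    have h2 : z ∈ A := by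
      change ψ z ∈ N
      rw [← h1]; exact hw
    rw [ha, AddSubgroup.mem_closure_singleton] at h2
    obtain ⟨k, hk⟩ := h2
    exact ⟨k, by rw [← hk]; simp⟩
  obtain ⟨ε, hε, hdisc⟩ := core' D hDS (N.map (pre D).subtype) (by
    rintro p ⟨w, _, rfl⟩
    exact w.2) a hA
  -- a neighbourhood of the identity
  apply discreteTopology_of_isOpen_singleton_one
  have hι : Continuous (fun w : N => ((w : pre D) : Heis)) :=
    continuous_subtype_val.comp continuous_subtype_val
  have hU1 : IsOpen {w : N | |((w : pre D) : Heis).x| + |((w : pre D) : Heis).y| < ε} := by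
    apply isOpen_lt _ continuous_const
    exact ((continuous_x.comp hι).abs).add ((continuous_y.comp hι).abs)
  have hU2 : IsOpen {w : N | |((w : pre D) : Heis).z| < |a| + (if a = 0 then 1 else 0)} := by
    apply isOpen_lt _ continuous_const
    exact (continuous_z.comp hι).abs
  have heq : ({1} : Set N) = {w : N | |((w : pre D) : Heis).x| + |((w : pre D) : Heis).y| < ε} ∩
      {w : N | |((w : pre D) : Heis).z| < |a| + (if a = 0 then 1 else 0)} := by
    ext w
    rw [Set.mem_singleton_iff]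
    constructor
    · rintro rfl
      refine ⟨?_, ?_⟩
      · change |(1 : Heis).x| + |(1 : Heis).y| < ε
        simpa using hε
      · change |(1 : Heis).z| < |a| + (if a = 0 then 1 else 0)
        simp only [one_z, abs_zero]
        split_ifs with h
        · rw [h]; simp
        · rw [add_zero]; exact abs_pos.2 h
    · rintro ⟨h1, h2⟩
      have hw : ((w : pre D) : Heis) ∈ N.map (pre D).subtype := ⟨(w : pre D), w.2, rfl⟩
      obtain ⟨hx, hy⟩ := hdisc _ hw h1
      have hw2 : ((w : pre D) : Heis) = Heis.mk 0 0 ((w : pre D) : Heis).z := Heis.ext hx hy rfl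
      obtain ⟨k, hk⟩ := hA _ (hw2 ▸ hw)
      have hz : ((w : pre D) : Heis).z = 0 := by
        change |((w : pre D) : Heis).z| < |a| + (if a = 0 then 1 else 0) at h2
        by_cases h : a = 0
        · rw [hk, h, mul_zero]
        · rw [if_neg h, add_zero, hk, abs_mul] at h2
          have hk0 : k = 0 := by
            by_contra hne
            have h5 : (1 : ℝ) ≤ |(k : ℝ)| := by
              have : 1 ≤ |k| := Int.one_le_abs hne
              exact_mod_cast this
            have := abs_pos.2 h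
            nlinarith
          rw [hk, hk0]; simp
      apply Subtype.ext
      apply Subtype.ext
      exact Heis.ext hx hy hz
  rw [heq]
  exact hU1.inter hU2

/-! ### Closedness -/

theorem isClosed_pre_iff (D : AddSubgroup (ℝ × ℝ)) :
    IsClosed (pre D : Set Heis) ↔ IsClosed (D : Set (ℝ × ℝ)) := by
  constructor
  · intro h
    have hc : Continuous (fun p : ℝ × ℝ => Heis.mk p.1 p.2 0) :=
      continuous_mk.comp (by fun_prop : Continuous (fun p : ℝ × ℝ => ((p.1, p.2, 0) : ℝ × ℝ × ℝ)))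
    exact h.preimage hc
  · intro h
    have hc : Continuous (fun p : Heis => ((p.x, p.y) : ℝ × ℝ)) :=
      continuous_x.prodMk continuous_y
    exact h.preimage hc

/-! ### Dense line sections -/

/-- the one-parameter subgroup over the line spanned by `v` -/
noncomputable def gam (v : ℝ × ℝ) (t : ℝ) : Heis :=
  Heis.mk (t * v.1) (t * v.2) (t ^ 2 * v.1 * v.2 / 2)

theorem gam_add (v : ℝ × ℝ) (s t : ℝ) : gam v s * gam v t = gam v (s + t) := by
  apply Heis.ext <;> simp [gam] <;> ring

theorem gam_zero (v : ℝ × ℝ) : gam v 0 = 1 := by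
  apply Heis.ext <;> simp [gam]

theorem gam_neg (v : ℝ × ℝ) (t : ℝ) : (gam v t)⁻¹ = gam v (-t) := by
  apply Heis.ext <;> simp [gam]
  ring

theorem continuous_gam (v : ℝ × ℝ) : Continuous (gam v) :=
  continuous_mk.comp (by fun_prop : Continuous (fun t : ℝ =>
    ((t * v.1, t * v.2, t ^ 2 * v.1 * v.2 / 2) : ℝ × ℝ × ℝ)))

/-- the parameter of a point of the one-parameter subgroup -/
noncomputable def tau (v : ℝ × ℝ) (p : Heis) : ℝ :=
  (p.x * v.1 + p.y * v.2) / (v.1 ^ 2 + v.2 ^ 2)

theorem continuous_tau (v : ℝ × ℝ) : Continuous (tau v) :=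
  ((continuous_x.mul continuous_const).add (continuous_y.mul continuous_const)).div_const _

theorem tau_gam {v : ℝ × ℝ} (hv : v ≠ 0) (t : ℝ) : tau v (gam v t) = t := by
  have := sq_pos_of_ne hv
  simp only [tau, gam, mk_x, mk_y]
  rw [div_eq_iff this.ne']
  ring

theorem range_gam {v : ℝ × ℝ} (hv : v ≠ 0) :
    Set.range (gam v) = {p : Heis | p.x * v.2 = p.y * v.1 ∧ 2 * p.z = p.x * p.y} := by
  have hs := sq_pos_of_ne hv
  ext p
  constructor
  · rintro ⟨t, rfl⟩
    simp only [gam, Set.mem_ofPred_eq, mk_x, mk_y, mk_z]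
    constructor <;> ring
  · rintro ⟨h1, h2⟩
    have hx : tau v p * v.1 = p.x := by
      simp only [tau]
      field_simp
      linear_combination (-v.2) * h1
    have hy : tau v p * v.2 = p.y := by
      simp only [tau]
      field_simp
      linear_combination v.1 * h1
    refine ⟨tau v p, Heis.ext hx hy ?_⟩
    simp only [gam, mk_z]
    have : tau v p ^ 2 * v.1 * v.2 = (tau v p * v.1) * (tau v p * v.2) := by ring
    rw [this, hx, hy]
    linarith

theorem isClosed_range_gam {v : ℝ × ℝ} (hv : v ≠ 0) : IsClosed (Set.range (gam v)) := by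
  rw [range_gam hv]
  have := continuous_x; have := continuous_y; have := continuous_z
  exact (isClosed_eq (by fun_prop) (by fun_prop)).inter (isClosed_eq (by fun_prop) (by fun_prop))

instance : TopologicalSpace.MetrizableSpace Heis :=
  inferInstanceAs (TopologicalSpace.MetrizableSpace (ℝ × ℝ × ℝ))

theorem not_zm (D : AddSubgroup (ℝ × ℝ)) (v : ℝ × ℝ) (hv : v ≠ 0)
    (hsm : ∀ ε : ℝ, 0 < ε → ∃ t : ℝ, t • v ∈ D ∧ |t| < ε ∧ t ≠ 0) (t₀ : ℝ) (ht₀ : t₀ • v ∉ D) :
    ¬ Zm (pre D) := by
  intro hZ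
  have hmemD : ∀ t : ℝ, gam v t ∈ pre D ↔ t • v ∈ D := fun t => Iff.rfl
  let N : Subgroup (pre D) :=
    { carrier := {w | ∃ t, (w : Heis) = gam v t}
      mul_mem' := by
        rintro a b ⟨s, hs⟩ ⟨t, ht⟩
        refine ⟨s + t, ?_⟩
        rw [← gam_add, ← hs, ← ht]
        rfl
      one_mem' := ⟨0, (gam_zero v).symm⟩
      inv_mem' := by
        rintro a ⟨s, hs⟩
        refine ⟨-s, ?_⟩
        rw [← gam_neg, ← hs]
        rfl }
  have hNcl : IsClosed (N : Set (pre D)) := by
    have h1 : (N : Set (pre D)) = Subtype.val ⁻¹' Set.range (gam v) := by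
      ext w
      constructor
      · rintro ⟨t, ht⟩
        exact ⟨t, ht.symm⟩
      · rintro ⟨t, ht⟩
        exact ⟨t, ht.symm⟩
    rw [h1]
    exact (isClosed_range_gam hv).preimage continuous_subtype_val
  -- the parameter
  let f : N → ℝ := fun w => tau v ((w : pre D) : Heis)
  have hf : Continuous f :=
    (continuous_tau v).comp (continuous_subtype_val.comp continuous_subtype_val)
  have hfg : ∀ w : N, ((w : pre D) : Heis) = gam v (f w) := by
    rintro ⟨w, t, ht⟩
    simp only [f]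
    rw [ht, tau_gam hv]
  have hfD : ∀ w : N, f w • v ∈ D := by
    intro w
    rw [← hmemD, ← hfg]
    exact (w : pre D).2
  -- a local description of open sets
  have hloc : ∀ (w : N) (U : Set N), w ∈ U → IsOpen U → ∃ ε : ℝ, 0 < ε ∧
      ∀ u : N, |f u - f w| < ε → u ∈ U := by
    intro w U hwU hU
    obtain ⟨U1, hU1, rfl⟩ := isOpen_induced_iff.1 hU
    obtain ⟨U2, hU2, rfl⟩ := isOpen_induced_iff.1 hU1
    have h1 : IsOpen (gam v ⁻¹' U2) := hU2.preimage (continuous_gam v)
    have h2 : f w ∈ gam v ⁻¹' U2 := by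
      change gam v (f w) ∈ U2
      rw [← hfg]
      exact hwU
    obtain ⟨ε, hε, hball⟩ := Metric.isOpen_iff.1 h1 _ h2
    refine ⟨ε, hε, fun u hu => ?_⟩
    have h3 : f u ∈ Metric.ball (f w) ε := by
      rw [Metric.mem_ball, Real.dist_eq]
      exact hu
    have h4 := hball h3
    change gam v (f u) ∈ U2 at h4
    rw [← hfg] at h4
    exact h4
  -- points outside `D` on the line are dense
  let L : AddSubgroup ℝ :=
    { carrier := {t | t • v ∈ D}
      add_mem' := by
        intro s t hs ht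
        change (s + t) • v ∈ D
        rw [add_smul]
        exact D.add_mem hs ht
      zero_mem' := by
        change (0 : ℝ) • v ∈ D
        rw [zero_smul]
        exact D.zero_mem
      neg_mem' := by
        intro s hs
        change (-s) • v ∈ D
        rw [neg_smul]
        exact D.neg_mem hs }
  have hLd : Dense (L : Set ℝ) := by
    apply AddSubgroup.dense_of_not_isolated_zero
    intro ε hε
    obtain ⟨t, ht, hte, ht0⟩ := hsm ε hε
    rcases lt_or_gt_of_ne ht0 with h | h
    · refine ⟨-t, L.neg_mem ht, ?_, ?_⟩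
      · linarith
      · rw [abs_of_neg h] at hte
        exact hte
    · refine ⟨t, ht, h, ?_⟩
      rw [abs_of_pos h] at hte
      exact hte
  have hout : ∀ r s : ℝ, r < s → ∃ y, r < y ∧ y < s ∧ y • v ∉ D := by
    intro r s hrs
    obtain ⟨l, hl, hl1⟩ := hLd.exists_mem_open (isOpen_Ioo (a := r - t₀) (b := s - t₀))
      ⟨(r + s) / 2 - t₀, by constructor <;> linarith⟩
    refine ⟨l + t₀, by linarith [hl1.1], by linarith [hl1.2], fun h => ?_⟩
    apply ht₀
    have h2 : (l + t₀) - l ∈ L := L.sub_mem h hl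
    have h3 : (l + t₀) - l = t₀ := by ring
    rw [h3] at h2
    exact h2
  have hzd : ZeroDim N := by
    refine TopologicalSpace.isTopologicalBasis_of_isOpen_of_nhds (fun s hs => hs.isOpen) ?_
    intro w U hw hU
    obtain ⟨ε, hε, h⟩ := hloc w U hw hU
    obtain ⟨r, hr1, hr2, hr⟩ := hout (f w - ε) (f w) (by linarith)
    obtain ⟨s, hs1, hs2, hs⟩ := hout (f w) (f w + ε) (by linarith)
    refine ⟨f ⁻¹' Set.Ioo r s, ⟨?_, isOpen_Ioo.preimage hf⟩, ⟨hr2, hs1⟩, ?_⟩
    · have h1 : f ⁻¹' Set.Ioo r s = f ⁻¹' Set.Icc r s := by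
        ext u
        constructor
        · intro hu
          exact ⟨hu.1.le, hu.2.le⟩
        · intro hu
          refine ⟨lt_of_le_of_ne hu.1 ?_, lt_of_le_of_ne hu.2 ?_⟩
          · intro h
            exact hr (h ▸ hfD u)
          · intro h
            exact hs (h ▸ hfD u)
      rw [h1]
      exact isClosed_Icc.preimage hf
    · intro u hu
      apply h
      rw [abs_lt]
      constructor
      · linarith [hu.1]
      · linarith [hu.2]
  have hemb : IsEmbedding (fun w : N => ((w : pre D) : Heis)) :=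
    IsEmbedding.subtypeVal.comp IsEmbedding.subtypeVal
  have hmet : TopologicalSpace.MetrizableSpace N := hemb.metrizableSpace
  have hdisc := hZ N hNcl hzd hmet
  obtain ⟨ε, hε, h⟩ := hloc 1 {1} rfl (isOpen_discrete _)
  obtain ⟨t, ht, hte, ht0⟩ := hsm ε hε
  have hf1 : f 1 = 0 := by
    change tau v (1 : Heis) = 0
    simp [tau]
  let u : N := ⟨⟨gam v t, ht⟩, t, rfl⟩
  have hfu : f u = t := tau_gam hv t
  have h1 : u = 1 := by
    have := h u (by rw [hfu, hf1, sub_zero]; exact hte)
    exact this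
  apply ht0
  rw [← hfu, h1, hf1]

/-! ### The classification -/

theorem isClosed_multiples (a : ℝ) : IsClosed {t : ℝ | ∃ k : ℤ, t = k * a} := by
  by_cases ha : a = 0
  · have : {t : ℝ | ∃ k : ℤ, t = k * a} = {0} := by
      ext t
      simp [ha]
    rw [this]
    exact isClosed_singleton
  · have h1 : {t : ℝ | ∃ k : ℤ, t = k * a} = (fun t : ℝ => t / a) ⁻¹' Set.range ((↑) : ℤ → ℝ) := by
      ext t
      constructor
      · rintro ⟨k, rfl⟩
        exact ⟨k, by field_simp⟩
      · rintro ⟨k, hk⟩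
        simp only at hk
        exact ⟨k, by rw [hk]; field_simp⟩
    rw [h1]
    exact Int.isClosedEmbedding_coe_real.isClosed_range.preimage (continuous_id.div_const a)

theorem zm_iff (D : AddSubgroup (ℝ × ℝ)) (hD : ¬ IsClosed (D : Set (ℝ × ℝ))) :
    Zm (pre D) ↔ DiscreteSections D := by
  refine ⟨fun hZ => ?_, zm_pre D⟩
  by_contra hcon
  unfold DiscreteSections at hcon
  push Not at hcon
  obtain ⟨v, hv, hsm⟩ := hcon
  by_cases hall : ∀ t : ℝ, t • v ∈ D
  · -- a whole line
    set w : ℝ × ℝ := (-v.2, v.1) with hw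
    have hs := sq_pos_of_ne hv
    have hw0 : w ≠ 0 := by
      intro h
      apply hv
      have h1 := congrArg Prod.fst h
      have h2 := congrArg Prod.snd h
      simp only [hw, Prod.fst_zero, Prod.snd_zero] at h1 h2
      exact Prod.ext h2 (by simpa using h1)
    let L : AddSubgroup ℝ :=
      { carrier := {t | t • w ∈ D}
        add_mem' := by
          intro s t hs ht
          change (s + t) • w ∈ D
          rw [add_smul]
          exact D.add_mem hs ht
        zero_mem' := by
          change (0 : ℝ) • w ∈ D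
          rw [zero_smul]
          exact D.zero_mem
        neg_mem' := by
          intro s hs
          change (-s) • w ∈ D
          rw [neg_smul]
          exact D.neg_mem hs }
    let g : ℝ × ℝ → ℝ := fun p => (p.2 * v.1 - p.1 * v.2) / (v.1 ^ 2 + v.2 ^ 2)
    have hg : Continuous g := by
      apply Continuous.div_const
      fun_prop
    have hDL : (D : Set (ℝ × ℝ)) = g ⁻¹' (L : Set ℝ) := by
      ext p
      have hp : p = ((p.1 * v.1 + p.2 * v.2) / (v.1 ^ 2 + v.2 ^ 2)) • v + g p • w := by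
        apply Prod.ext
        · simp only [Prod.fst_add, Prod.smul_fst, smul_eq_mul, hw, g]
          field_simp
          ring
        · simp only [Prod.snd_add, Prod.smul_snd, smul_eq_mul, hw, g]
          field_simp
          ring
      constructor
      · intro h
        change g p • w ∈ D
        have h1 := D.sub_mem (show p ∈ D from h) (hall ((p.1 * v.1 + p.2 * v.2) /
          (v.1 ^ 2 + v.2 ^ 2)))
        nth_rewrite 1 [hp] at h1
        rw [add_sub_cancel_left] at h1
        exact h1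
      · intro h
        change p ∈ D
        rw [hp]
        exact D.add_mem (hall _) h
    have hLn : ¬ IsClosed (L : Set ℝ) := by
      intro h
      apply hD
      rw [hDL]
      exact h.preimage hg
    rcases L.dense_or_cyclic with h | ⟨a, ha⟩
    · have hne : ∃ t₀ : ℝ, t₀ ∉ L := by
        by_contra hc
        push Not at hc
        apply hLn
        have : (L : Set ℝ) = Set.univ := Set.eq_univ_of_forall hc
        rw [this]
        exact isClosed_univ
      obtain ⟨t₀, ht₀⟩ := hne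
      refine not_zm D w hw0 ?_ t₀ ht₀ hZ
      intro ε hε
      obtain ⟨t, ht, ht1⟩ := h.exists_mem_open (isOpen_Ioo (a := (0 : ℝ)) (b := ε))
        ⟨ε / 2, by constructor <;> linarith⟩
      exact ⟨t, ht, by rw [abs_of_pos ht1.1]; exact ht1.2, ht1.1.ne'⟩
    · apply hLn
      have h1 : (L : Set ℝ) = {t : ℝ | ∃ k : ℤ, t = k * a} := by
        ext t
        rw [SetLike.mem_coe, ha, AddSubgroup.mem_closure_singleton]
        constructor
        · rintro ⟨k, hk⟩
          exact ⟨k, by rw [← hk]; simp⟩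
        · rintro ⟨k, hk⟩
          exact ⟨k, by rw [hk]; simp⟩
      rw [h1]
      exact isClosed_multiples a
  · push Not at hall
    obtain ⟨t₀, ht₀⟩ := hall
    refine not_zm D v hv ?_ t₀ ht₀ hZ
    intro ε hε
    obtain ⟨t, h1, h2, h3⟩ := hsm ε hε
    exact ⟨t, h1, h2, h3⟩

/-! ### Groups of rank three -/

/-- the subgroup of the plane generated by `(1, 0)`, `(0, 1)` and `(α, β)` -/
def rankThree (α β : ℝ) : AddSubgroup (ℝ × ℝ) where
  carrier := {p | ∃ i j k : ℤ, p.1 = i + k * α ∧ p.2 = j + k * β}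
  add_mem' := by
    rintro p q ⟨i, j, k, h1, h2⟩ ⟨i', j', k', h1', h2'⟩
    exact ⟨i + i', j + j', k + k', by rw [Prod.fst_add, h1, h1']; push_cast; ring,
      by rw [Prod.snd_add, h2, h2']; push_cast; ring⟩
  zero_mem' := ⟨0, 0, 0, by simp, by simp⟩
  neg_mem' := by
    rintro p ⟨i, j, k, h1, h2⟩
    exact ⟨-i, -j, -k, by rw [Prod.fst_neg, h1]; push_cast; ring,
      by rw [Prod.snd_neg, h2]; push_cast; ring⟩

/-- `1`, `α`, `β` are linearly independent over the rationals -/
def Indep (α β : ℝ) : Prop :=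
  ∀ a b c : ℤ, (a : ℝ) + b * α + c * β = 0 → a = 0 ∧ b = 0 ∧ c = 0

theorem det_zero' {α β : ℝ} (hi : Indep α β) {i j k i' j' k' : ℤ}
    (h : ((i : ℝ) + k * α) * (j' + k' * β) - (i' + k' * α) * (j + k * β) = 0) :
    i * j' = i' * j ∧ i * k' = i' * k ∧ k * j' = k' * j := by
  have h1 : (((i * j' - i' * j : ℤ)) : ℝ) + ((k * j' - k' * j : ℤ)) * α +
      ((i * k' - i' * k : ℤ)) * β = 0 := by
    push_cast
    linarith
  obtain ⟨h2, h3, h4⟩ := hi _ _ _ h1
  exact ⟨by linarith, by linarith, by linarith⟩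

theorem sections_rankThree {α β : ℝ} (hi : Indep α β) : DiscreteSections (rankThree α β) := by
  intro v hv
  by_cases htriv : ∀ t : ℝ, t • v ∈ rankThree α β → t = 0
  · exact ⟨1, one_pos, fun t ht _ => htriv t ht⟩
  push Not at htriv
  obtain ⟨s, ⟨i', j', k', hqx, hqy⟩, hs0⟩ := htriv
  simp only [Prod.smul_fst, Prod.smul_snd, smul_eq_mul] at hqx hqy
  have key : ∃ m' : ℤ, m' ≠ 0 ∧ ∀ t : ℝ, t • v ∈ rankThree α β →
      ∃ m : ℤ, (m' : ℝ) * (t * v.1) = m * (s * v.1) ∧ (m' : ℝ) * (t * v.2) = m * (s * v.2) := by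
    have hcase : i' ≠ 0 ∨ j' ≠ 0 ∨ k' ≠ 0 := by
      by_contra hcon
      push Not at hcon
      obtain ⟨h1, h2, h3⟩ := hcon
      rw [h1, h3] at hqx
      rw [h2, h3] at hqy
      simp only [Int.cast_zero, zero_mul, add_zero, mul_eq_zero, hs0, false_or] at hqx hqy
      exact hv (Prod.ext hqx hqy)
    have hrel : ∀ t : ℝ, t • v ∈ rankThree α β → ∃ i j k : ℤ, t * v.1 = i + k * α ∧
        t * v.2 = j + k * β ∧ i * j' = i' * j ∧ i * k' = i' * k ∧ k * j' = k' * j := by
      rintro t ⟨i, j, k, hpx, hpy⟩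
      simp only [Prod.smul_fst, Prod.smul_snd, smul_eq_mul] at hpx hpy
      have h : (t * v.1) * (s * v.2) - (s * v.1) * (t * v.2) = 0 := by ring
      rw [hpx, hpy, hqx, hqy] at h
      exact ⟨i, j, k, hpx, hpy, det_zero' hi h⟩
    rcases hcase with h | h | h
    · refine ⟨i', h, fun t ht => ?_⟩
      obtain ⟨i, j, k, hpx, hpy, h1, h2, h3⟩ := hrel t ht
      have h1' : (i : ℝ) * j' = i' * j := by exact_mod_cast h1
      have h2' : (i : ℝ) * k' = i' * k := by exact_mod_cast h2
      refine ⟨i, ?_, ?_⟩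
      · rw [hpx, hqx]; linear_combination (-α) * h2'
      · rw [hpy, hqy]; linear_combination (-1 : ℝ) * h1' - β * h2'
    · refine ⟨j', h, fun t ht => ?_⟩
      obtain ⟨i, j, k, hpx, hpy, h1, h2, h3⟩ := hrel t ht
      have h1' : (i : ℝ) * j' = i' * j := by exact_mod_cast h1
      have h3' : (k : ℝ) * j' = k' * j := by exact_mod_cast h3
      refine ⟨j, ?_, ?_⟩
      · rw [hpx, hqx]; linear_combination h1' + α * h3'
      · rw [hpy, hqy]; linear_combination β * h3'
    · refine ⟨k', h, fun t ht => ?_⟩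
      obtain ⟨i, j, k, hpx, hpy, h1, h2, h3⟩ := hrel t ht
      have h2' : (i : ℝ) * k' = i' * k := by exact_mod_cast h2
      have h3' : (k : ℝ) * j' = k' * j := by exact_mod_cast h3
      refine ⟨k, ?_, ?_⟩
      · rw [hpx, hqx]; linear_combination h2'
      · rw [hpy, hqy]; linear_combination (-1 : ℝ) * h3'
  obtain ⟨m', hm', hN⟩ := key
  have hm0 : (0 : ℝ) < |(m' : ℝ)| := abs_pos.2 (by exact_mod_cast hm')
  have hspos : 0 < |s| := abs_pos.2 hs0
  refine ⟨|s| / |(m' : ℝ)|, by positivity, fun t ht hlt => ?_⟩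
  obtain ⟨m, h1, h2⟩ := hN t ht
  have hmt : (m' : ℝ) * t = m * s := by
    by_cases hv1 : v.1 = 0
    · have hv2 : v.2 ≠ 0 := fun h => hv (Prod.ext hv1 h)
      apply mul_right_cancel₀ hv2
      linarith
    · apply mul_right_cancel₀ hv1
      linarith
  have hmz : m = 0 := by
    by_contra hne
    have h3 : (1 : ℝ) ≤ |(m : ℝ)| := by
      have : 1 ≤ |m| := Int.one_le_abs hne
      exact_mod_cast this
    have h4 : |(m' : ℝ)| * |t| = |(m : ℝ)| * |s| := by
      rw [← abs_mul, ← abs_mul, hmt]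
    rw [lt_div_iff₀ hm0] at hlt
    nlinarith
  rw [hmz] at hmt
  have hm'' : (m' : ℝ) ≠ 0 := by exact_mod_cast hm'
  simpa [hm''] using hmt

/-- small nonzero elements -/
theorem small' {α β : ℝ} (hi : Indep α β) (ε : ℝ) (hε : 0 < ε) :
    ∃ s t : ℝ, (s, t) ∈ rankThree α β ∧ s ≠ 0 ∧ |s| < ε ∧ |t| < ε := by
  let u : ℕ → ℝ × ℝ := fun c => (Int.fract ((c : ℝ) * α), Int.fract ((c : ℝ) * β))
  have hu : ∀ c, u c ∈ Set.Icc (0 : ℝ) 1 ×ˢ Set.Icc (0 : ℝ) 1 := by
    intro c
    exact ⟨⟨Int.fract_nonneg _, (Int.fract_lt_one _).le⟩,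
      ⟨Int.fract_nonneg _, (Int.fract_lt_one _).le⟩⟩
  obtain ⟨w, _, φ, hφ, hlim⟩ := (isCompact_Icc.prod isCompact_Icc).tendsto_subseq hu
  have hc := hlim.cauchySeq
  rw [Metric.cauchySeq_iff'] at hc
  obtain ⟨M, hM⟩ := hc ε hε
  have h1 := hM (M + 1) (by omega)
  have hlt : φ M < φ (M + 1) := hφ (by omega)
  set c := φ M
  set c' := φ (M + 1)
  simp only [Function.comp, Prod.dist_eq, max_lt_iff, Real.dist_eq, u] at h1
  refine ⟨Int.fract ((c' : ℝ) * α) - Int.fract ((c : ℝ) * α),
    Int.fract ((c' : ℝ) * β) - Int.fract ((c : ℝ) * β), ?_, ?_, h1.1, h1.2⟩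
  · refine ⟨⌊(c : ℝ) * α⌋ - ⌊(c' : ℝ) * α⌋, ⌊(c : ℝ) * β⌋ - ⌊(c' : ℝ) * β⌋, (c' : ℤ) - c, ?_, ?_⟩
    · unfold Int.fract; push_cast; ring
    · unfold Int.fract; push_cast; ring
  · intro h
    have h2 : ((⌊(c : ℝ) * α⌋ - ⌊(c' : ℝ) * α⌋ : ℤ) : ℝ) + (((c' : ℤ) - c : ℤ) : ℝ) * α +
        ((0 : ℤ) : ℝ) * β = 0 := by
      unfold Int.fract at h
      push_cast
      linarith
    have h3 := (hi _ _ _ h2).2.1
    omega

theorem not_closed_rankThree {α β : ℝ} (hi : Indep α β) :
    ¬ IsClosed (rankThree α β : Set (ℝ × ℝ)) := by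
  have h4 : Cardinal.mk (ℕ → Bool) = Cardinal.continuum := by simp
  intro hcl
  have hDco : (rankThree α β : Set (ℝ × ℝ)).Countable := by
    have : (rankThree α β : Set (ℝ × ℝ)) ⊆ Set.range (fun v : ℤ × ℤ × ℤ =>
        (((v.1 : ℝ) + v.2.2 * α, (v.2.1 : ℝ) + v.2.2 * β) : ℝ × ℝ)) := by
      rintro ⟨s, t⟩ ⟨i, j, k, h1, h2⟩
      exact ⟨(i, j, k), by simp only at h1 h2 ⊢; rw [h1, h2]⟩
    exact (Set.countable_range _).mono this
  have hperf : Perfect (rankThree α β : Set (ℝ × ℝ)) := by
    refine ⟨hcl, ?_⟩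
    intro p hp
    rw [accPt_iff_nhds]
    intro U hU
    obtain ⟨ε, hε, hball⟩ := Metric.mem_nhds_iff.1 hU
    obtain ⟨s, t, hst, hs0, hs, ht⟩ := small' hi ε hε
    refine ⟨p + (s, t), ⟨hball ?_, (rankThree α β).add_mem hp hst⟩, ?_⟩
    · rw [Metric.mem_ball, Prod.dist_eq, max_lt_iff, Real.dist_eq, Real.dist_eq]
      simpa using ⟨hs, ht⟩
    · intro h
      have := congrArg Prod.fst h
      simp at this
      exact hs0 this
  obtain ⟨f, hf, _, hinj⟩ := hperf.exists_nat_bool_injection ⟨0, (rankThree α β).zero_mem⟩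
  have h1 : (Set.range f).Countable := hDco.mono hf
  have h2 : Countable (ℕ → Bool) := by
    have := h1.to_subtype
    exact (Equiv.ofInjective f hinj).countable_iff.2 this
  have h3 := Cardinal.mk_le_aleph0_iff.2 h2
  rw [h4] at h3
  exact absurd h3 (not_le.2 Cardinal.aleph0_lt_continuum)

theorem closed_of_rat (α β : ℚ) : IsClosed (rankThree (α : ℝ) (β : ℝ) : Set (ℝ × ℝ)) := by
  have hα : ((α.den : ℝ)) * (α : ℝ) = (α.num : ℝ) := by
    have h := Rat.mul_den_eq_num α
    have h1 : (((α * α.den : ℚ)) : ℝ) = ((α.num : ℚ) : ℝ) := by rw [h]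
    push_cast at h1
    linarith
  have hβ : ((β.den : ℝ)) * (β : ℝ) = (β.num : ℝ) := by
    have h := Rat.mul_den_eq_num β
    have h1 : (((β * β.den : ℚ)) : ℝ) = ((β.num : ℚ) : ℝ) := by rw [h]
    push_cast at h1
    linarith
  have hα0 : (0 : ℝ) < α.den := by exact_mod_cast α.den_pos
  have hβ0 : (0 : ℝ) < β.den := by exact_mod_cast β.den_pos
  have hQ : (0 : ℝ) < (α.den : ℝ) * β.den := mul_pos hα0 hβ0
  have key : ∀ x ∈ rankThree (α : ℝ) (β : ℝ), ∃ m n : ℤ,
      ((α.den : ℝ) * β.den) * x.1 = m ∧ ((α.den : ℝ) * β.den) * x.2 = n := by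
    rintro x ⟨i, j, k, h1, h2⟩
    refine ⟨α.den * β.den * i + k * β.den * α.num, α.den * β.den * j + k * α.den * β.num, ?_, ?_⟩
    · rw [h1]
      push_cast
      linear_combination (k : ℝ) * β.den * hα
    · rw [h2]
      push_cast
      linear_combination (k : ℝ) * α.den * hβ
  have hcoord : ∀ (u v : ℝ) (m n : ℤ), ((α.den : ℝ) * β.den) * u = m →
      ((α.den : ℝ) * β.den) * v = n → |u - v| < 1 / ((α.den : ℝ) * β.den) → u = v := by
    intro u v m n h1 h2 h3
    rw [lt_div_iff₀ hQ] at h3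
    have h4 : |((m - n : ℤ) : ℝ)| < 1 := by
      push_cast
      rw [← h1, ← h2, ← mul_sub, abs_mul, abs_of_pos hQ, mul_comm]
      exact h3
    have h5 : m - n = 0 := by
      by_contra hne
      have : (1 : ℝ) ≤ |((m - n : ℤ) : ℝ)| := by
        have : 1 ≤ |m - n| := Int.one_le_abs hne
        exact_mod_cast this
      linarith
    have h6 : m = n := by omega
    rw [h6] at h1
    exact mul_left_cancel₀ hQ.ne' (h1.trans h2.symm)
  refine Metric.isClosed_of_pairwise_le_dist (ε := 1 / ((α.den : ℝ) * β.den)) (by positivity) ?_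
  intro x hx y hy hxy
  by_contra hcon
  push Not at hcon
  rw [Prod.dist_eq, max_lt_iff, Real.dist_eq, Real.dist_eq] at hcon
  obtain ⟨m, n, h1, h2⟩ := key x hx
  obtain ⟨m', n', h1', h2'⟩ := key y hy
  exact hxy (Prod.ext (hcoord _ _ _ _ h1 h1' hcon.1) (hcoord _ _ _ _ h2 h2' hcon.2))

theorem rat_of_sections {α β : ℝ} (hD : DiscreteSections (rankThree α β)) {a b c : ℤ}
    (h : (a : ℝ) + b * α + c * β = 0) (hne : ¬ (b = 0 ∧ c = 0)) :
    (∃ r : ℚ, α = r) ∧ ∃ r : ℚ, β = r := by
  set v : ℝ × ℝ := (-(c : ℝ), (b : ℝ)) with hv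
  have hv0 : v ≠ 0 := by
    intro h0
    apply hne
    have h1 := congrArg Prod.fst h0
    have h2 := congrArg Prod.snd h0
    simp only [hv, Prod.fst_zero, Prod.snd_zero, neg_eq_zero, Int.cast_eq_zero] at h1 h2
    exact ⟨h2, h1⟩
  let L : AddSubgroup ℝ :=
    { carrier := {t | t • v ∈ rankThree α β}
      add_mem' := by
        intro s t hs ht
        change (s + t) • v ∈ rankThree α β
        rw [add_smul]
        exact (rankThree α β).add_mem hs ht
      zero_mem' := by
        change (0 : ℝ) • v ∈ rankThree α β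
        rw [zero_smul]
        exact (rankThree α β).zero_mem
      neg_mem' := by
        intro s hs
        change (-s) • v ∈ rankThree α β
        rw [neg_smul]
        exact (rankThree α β).neg_mem hs }
  have h1L : (1 : ℝ) ∈ L := ⟨-c, b, 0, by simp [hv], by simp [hv]⟩
  have hβL : β ∈ L := by
    refine ⟨a, 0, b, ?_, ?_⟩
    · simp only [hv, Prod.smul_fst, smul_eq_mul]
      linarith
    · simp only [hv, Prod.smul_snd, smul_eq_mul, Int.cast_zero]
      ring
  have hαL : -α ∈ L := by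
    refine ⟨0, a, c, ?_, ?_⟩
    · simp only [hv, Prod.smul_fst, smul_eq_mul, Int.cast_zero]
      ring
    · simp only [hv, Prod.smul_snd, smul_eq_mul]
      linarith
  obtain ⟨ε, hε, hiso⟩ := hD v hv0
  have hcyc : ∃ g : ℝ, L = AddSubgroup.closure {g} := by
    rcases L.dense_or_cyclic with hd | hd
    · exfalso
      obtain ⟨t, ht, ht1⟩ := hd.exists_mem_open (isOpen_Ioo (a := (0 : ℝ)) (b := ε))
        ⟨ε / 2, by constructor <;> linarith⟩
      have := hiso t ht (by rw [abs_of_pos ht1.1]; exact ht1.2)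
      exact ht1.1.ne' this
    · exact hd
  obtain ⟨g, hg⟩ := hcyc
  have hmem : ∀ t ∈ L, ∃ k : ℤ, t = k * g := by
    intro t ht
    rw [hg, AddSubgroup.mem_closure_singleton] at ht
    obtain ⟨k, hk⟩ := ht
    exact ⟨k, by rw [← hk]; simp⟩
  obtain ⟨n, hn⟩ := hmem 1 h1L
  have hn0 : (n : ℝ) ≠ 0 := by
    intro h0
    rw [h0, zero_mul] at hn
    exact one_ne_zero hn
  have hgr : g = ((1 / n : ℚ) : ℝ) := by
    push_cast
    rw [eq_div_iff hn0]
    linarith
  constructor
  · obtain ⟨k, hk⟩ := hmem _ hαL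
    refine ⟨-(k * (1 / n)), ?_⟩
    have : α = -(k * g) := by linarith
    rw [this, hgr]
    push_cast
    ring
  · obtain ⟨k, hk⟩ := hmem _ hβL
    refine ⟨k * (1 / n), ?_⟩
    rw [hk, hgr]
    push_cast
    ring

theorem rankThree_iff (α β : ℝ) :
    (Zm (pre (rankThree α β)) ∧ ¬ IsClosed (pre (rankThree α β) : Set Heis)) ↔ Indep α β := by
  constructor
  · rintro ⟨h1, h2⟩
    rw [isClosed_pre_iff] at h2
    have hD := (zm_iff _ h2).1 h1
    intro a b c h
    by_contra hcon
    have hne : ¬ (b = 0 ∧ c = 0) := by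
      rintro ⟨rfl, rfl⟩
      apply hcon
      refine ⟨?_, rfl, rfl⟩
      have : (a : ℝ) = 0 := by simpa using h
      exact_mod_cast this
    obtain ⟨⟨r, rfl⟩, ⟨r', rfl⟩⟩ := rat_of_sections hD h hne
    exact h2 (closed_of_rat r r')
  · intro hi
    exact ⟨zm_pre _ (sections_rankThree hi), by
      rw [isClosed_pre_iff]
      exact not_closed_rankThree hi⟩

end Pool.Agent.Y973.ZH
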